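import Pool.Agent.Helper20_TWS.Stmts

/-! TUP (W_surface, MP_680ca2_al): exactness of the tuples from exactness of the list chains. -/

set_option autoImplicit false

namespace Pool.Agent.TWS.H99

open Pool.Agent.TOR Pool.Agent.TOR.H58 Pool.Agent.TWS

theorem mem_Zc {V M : Type} [AddCommGroup M] {K : Set V → Prop} {p : ℕ} {c : List V →₀ M}
    (h : c ∈ Sup M (fun l => KL K l ∧ l.length = p)) (h0 : bd c = 0) : c ∈ Zc M K p :=
  ⟨h, h0⟩

theorem tup : TupS := by
  intro V M _ K hK m hE hex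
  refine ⟨fun hM => ?_, fun hm c hc => ?_, fun p hp c hc => ?_⟩
  · obtain ⟨x, hx⟩ := exists_ne (0 : M)
    have hn : KL K ([] : List V) := by
      have : {a | a ∈ ([] : List V)} = (∅ : Set V) := by
        ext a; simp
      change K {a | a ∈ ([] : List V)}
      rw [this]; exact hE
    have h0 : Finsupp.single ([] : List V) x ∈ Zc M K 0 := by
      refine mem_Zc (single_mem_Sup ⟨hn, rfl⟩ x) ?_
      rw [bd_single, bd1_nil]
    obtain ⟨b, hb, hbc⟩ := hex 0 (Nat.zero_le m) h0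
    have hb0 : b ≠ 0 := by
      rintro rfl
      rw [map_zero] at hbc
      exact hx (Finsupp.single_eq_zero.mp hbc.symm)
    obtain ⟨b', hb'⟩ := lift_tau 0 b (hb : b ∈ Sup M (fun l => KL K l ∧ l.length = 0 + 1))
    have hb'0 : b' ≠ 0 := by
      rintro rfl
      rw [map_zero] at hb'
      exact hb0 hb'.symm
    obtain ⟨f, -⟩ := Finsupp.ne_iff.mp hb'0
    exact ⟨f⟩
  · have h1 : tau K M 0 c ∈ Zc M K 1 := by
      refine mem_Zc (tau_mem 0 c) ?_
      rw [bd_tau0, hc, Finsupp.single_zero]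
    obtain ⟨b, hb, hbc⟩ := hex 1 hm h1
    obtain ⟨b', rfl⟩ := lift_tau 1 b hb
    exact ⟨b', tau_inj 0 ((bd_tau (K := K) hK 0 b').symm.trans hbc)⟩
  · have h1 : tau K M (p + 1) c ∈ Zc M K (p + 2) :=
      mem_Zc (tau_mem (p + 1) c)
        ((bd_tau (K := K) hK p c).trans ((congrArg _ hc).trans (map_zero _)))
    obtain ⟨b, hb, hbc⟩ := hex (p + 2) (by omega) h1
    obtain ⟨b', rfl⟩ := lift_tau (p + 2) b hb
    exact ⟨b', tau_inj _ ((bd_tau (K := K) hK (p + 1) b').symm.trans hbc)⟩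

end Pool.Agent.TWS.H99
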